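import Pool.Agent.W201.NT.StmG

/-!
# First order expansion in a chart of a map with differential `-id` at a fixed point
-/

set_option autoImplicit false

open Metric Set
open scoped Manifold ContDiff Topology

namespace Pool.Agent.W98.NT.FO

open Pool.Agent.W201.NT

theorem main : S_FO := by
  intro d M _ _ _ hd θ p hp hθ hder ε hε
  have hid : (-ContinuousLinearMap.id ℝ (EuclideanSpace ℝ (Fin d))) ≠ 0 := by
    intro h
    have h1 := congrArg (fun L : EuclideanSpace ℝ (Fin d) →L[ℝ] EuclideanSpace ℝ (Fin d) =>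
      L (EuclideanSpace.single (⟨0, by omega⟩ : Fin d) (1 : ℝ)) ⟨0, by omega⟩) h
    simp at h1
  have hmd : MDifferentiableAt (𝓡 d) (𝓡 d) θ p := by
    by_contra hc
    have h0 := mfderiv_zero_of_not_mdifferentiableAt hc
    exact hid (hder.symm.trans h0)
  have hf := hmd.hasMFDerivAt
  obtain ⟨-, hfd⟩ := hf
  have hfd' : HasFDerivAt (writtenInExtChartAt (𝓡 d) (𝓡 d) p θ)
      (-ContinuousLinearMap.id ℝ (EuclideanSpace ℝ (Fin d))) (extChartAt (𝓡 d) p p) := by
    rw [← hasFDerivWithinAt_univ, ← (𝓡 d).range_eq_univ]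
    rw [← hder]
    exact hfd
  rw [hasFDerivAt_iff_isLittleO, Asymptotics.isLittleO_iff] at hfd'
  have h1 := hfd' hε
  have h2 : ContinuousAt (extChartAt (𝓡 d) p) p := continuousAt_extChartAt p
  have h3 := h2.eventually h1
  have h4 : ∀ᶠ y in 𝓝 p, y ∈ (extChartAt (𝓡 d) p).source := extChartAt_source_mem_nhds p
  have h5 : ∀ᶠ y in 𝓝 p, θ y ∈ (extChartAt (𝓡 d) p).source := by
    have h6 : ContinuousAt θ p := hθ.continuousAt
    have h7 : (extChartAt (𝓡 d) p).source ∈ 𝓝 (θ p) := by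
      rw [hp]; exact extChartAt_source_mem_nhds p
    exact h6 h7
  have h6 := h3.and (h4.and h5)
  rw [Metric.eventually_nhds_iff] at h6
  obtain ⟨δ, hδ, h⟩ := h6
  refine ⟨δ, hδ, fun y hy => ?_⟩
  obtain ⟨a, b, c⟩ := h hy
  refine ⟨b, c, ?_⟩
  have e1 : writtenInExtChartAt (𝓡 d) (𝓡 d) p θ (extChartAt (𝓡 d) p y) =
      extChartAt (𝓡 d) p (θ y) := by
    simp only [writtenInExtChartAt, Function.comp_apply, hp]
    rw [(extChartAt (𝓡 d) p).left_inv b]
  have e2 : writtenInExtChartAt (𝓡 d) (𝓡 d) p θ (extChartAt (𝓡 d) p p) =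
      extChartAt (𝓡 d) p p := by
    simp only [writtenInExtChartAt, Function.comp_apply, hp]
    rw [(extChartAt (𝓡 d) p).left_inv (mem_extChartAt_source p), hp]
  rw [e1, e2] at a
  rw [ContinuousLinearMap.neg_apply, ContinuousLinearMap.id_apply, sub_neg_eq_add] at a
  exact a

end Pool.Agent.W98.NT.FO
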